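import Pool.Agent.H377Z.Pring.Main

set_option autoImplicit false

namespace Pool.Agent.Results.MP_fa619e_an.Counterexample

open Real Filter Topology MeasureTheory Pool.Agent.H377Z.Pring

/-- For `d = 2`, `p = 2`: a square integrable function on the torus that satisfies the logarithmic
modulus condition and whose rectangular Fourier sums diverge in the sense of Pringsheim at every
point. -/
theorem result :
    ∃ f : UnitAddTorus (Fin 2) → ℂ, MemLp f 2 (haarT 2) ∧
      Tendsto (fun δ : ℝ => modulus 2 f δ *
        ENNReal.ofReal (log (1 / δ) * log (log (log (exp (exp (exp 1)) / δ))))) (𝓝[>] 0) (𝓝 0) ∧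
      ∀ x, ¬ ∃ s : ℂ, Tendsto (fun n : Fin 2 → ℕ => rectSum f n x) atTop (𝓝 s) :=
  ⟨ff, memLp_ff, modulus_tendsto, diverges⟩

end Pool.Agent.Results.MP_fa619e_an.Counterexample
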